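import Pool.Agent.helper7.SC.Defs

set_option autoImplicit false

/-!
# Algebraic relations and local coordinates (module ALG of the comparison theorem)
-/

namespace Pool.Agent.helper42.SC

open MvPolynomial Pool.Agent.helper5.NBS Pool.Agent.helper7.SC

section W

variable {R : Type} [CommRing R] [Algebra ℂ R] {n : ℕ} {x : Fin n → R}

theorem mem_W {s : ℕ} {a : R} :
    a ∈ W x s ↔ ∃ p : MvPolynomial (Fin n) ℂ, p.totalDegree ≤ s ∧ aeval x p = a := by
  unfold W
  rw [Submodule.mem_map]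
  constructor
  · rintro ⟨p, hp, rfl⟩
    exact ⟨p, (mem_restrictTotalDegree _ _ _).1 hp, rfl⟩
  · rintro ⟨p, hp, rfl⟩
    exact ⟨p, (mem_restrictTotalDegree _ _ _).2 hp, rfl⟩

theorem W_mono {s t : ℕ} (h : s ≤ t) : W x s ≤ W x t := by
  intro a ha
  obtain ⟨p, hp, rfl⟩ := mem_W.1 ha
  exact mem_W.2 ⟨p, hp.trans h, rfl⟩

theorem one_mem_W : (1 : R) ∈ W x 0 := mem_W.2 ⟨1, by simp, by simp⟩

theorem mul_mem_W {s t : ℕ} {a b : R} (ha : a ∈ W x s) (hb : b ∈ W x t) :
    a * b ∈ W x (s + t) := by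
  obtain ⟨p, hp, rfl⟩ := mem_W.1 ha
  obtain ⟨q, hq, rfl⟩ := mem_W.1 hb
  exact mem_W.2 ⟨p * q, (totalDegree_mul _ _).trans (by omega), map_mul _ _ _⟩

theorem pow_mem_W {s : ℕ} {a : R} (ha : a ∈ W x s) (k : ℕ) : a ^ k ∈ W x (s * k) := by
  induction k with
  | zero => simpa using one_mem_W (x := x)
  | succ k ih =>
    rw [pow_succ, Nat.mul_succ]
    exact mul_mem_W ih ha

theorem exists_mem_W (hx : Algebra.adjoin ℂ (Set.range x) = ⊤) (z : R) : ∃ s, z ∈ W x s := by
  have hz : z ∈ Algebra.adjoin ℂ (Set.range x) := by rw [hx]; trivial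
  rw [Algebra.adjoin_range_eq_range_aeval] at hz
  obtain ⟨p, hp⟩ := hz
  exact ⟨p.totalDegree, mem_W.2 ⟨p, le_rfl, hp⟩⟩

instance finite_W (s : ℕ) : Module.Finite ℂ (W x s) := by
  unfold W
  infer_instance

end W

section rel

variable {R : Type} [CommRing R] [Algebra ℂ R] {n : ℕ} {x : Fin n → R}

/-- exponent vectors -/
noncomputable def expo {m : ℕ} (k : Fin 3 → Fin (m + 1)) : Fin 3 →₀ ℕ :=
  Finsupp.equivFunOnFinite.symm fun i => (k i : ℕ)

theorem expo_apply {m : ℕ} (k : Fin 3 → Fin (m + 1)) (i : Fin 3) : expo k i = k i := rfl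

theorem expo_inj {m : ℕ} {k k' : Fin 3 → Fin (m + 1)} (h : expo k = expo k') : k = k' := by
  funext i
  apply Fin.ext
  rw [← expo_apply, ← expo_apply, h]

/-- the polynomial with given coefficients -/
noncomputable def poly (m : ℕ) :
    ((Fin 3 → Fin (m + 1)) → ℂ) →ₗ[ℂ] MvPolynomial (Fin 3) ℂ :=
  ∑ k : Fin 3 → Fin (m + 1), (monomial (expo k)).comp (LinearMap.proj k)

theorem poly_apply (m : ℕ) (c : (Fin 3 → Fin (m + 1)) → ℂ) :
    poly m c = ∑ k, monomial (expo k) (c k) := by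
  simp [poly]

theorem coeff_poly (m : ℕ) (c : (Fin 3 → Fin (m + 1)) → ℂ) (k : Fin 3 → Fin (m + 1)) :
    coeff (expo k) (poly m c) = c k := by
  classical
  rw [poly_apply, coeff_sum, Finset.sum_eq_single k]
  · simp
  · intro b _ hb
    rw [coeff_monomial, if_neg fun h => hb (expo_inj h)]
  · intro h
    exact absurd (Finset.mem_univ k) h

/-- three elements of a ring with quadratic growth satisfy a relation -/
theorem exists_rel0 (hx : Algebra.adjoin ℂ (Set.range x) = ⊤) {N : ℕ}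
    (growth : ∃ c : ℤ, ∀ s : ℕ, |2 * (Module.finrank ℂ (W x s) : ℤ) - N * (s : ℤ) ^ 2| ≤
      c * (s + 1)) (y : Fin 3 → R) :
    ∃ g : MvPolynomial (Fin 3) ℂ, g ≠ 0 ∧ aeval y g = 0 := by
  obtain ⟨c, hc⟩ := growth
  choose d hd using fun i => exists_mem_W hx (y i)
  set D := d 0 + d 1 + d 2 with hD
  set m : ℕ := N * D ^ 2 + c.natAbs * (D + 1) with hm
  -- the evaluation map
  have hmem : ∀ a : (Fin 3 → Fin (m + 1)) → ℂ, aeval y (poly m a) ∈ W x (D * m) := by
    intro a
    rw [poly_apply, map_sum]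
    refine Submodule.sum_mem _ fun k _ => ?_
    rw [aeval_monomial, ← Algebra.smul_def]
    refine Submodule.smul_mem _ _ ?_
    rw [Finsupp.prod_fintype _ _ (fun i => pow_zero _), Fin.prod_univ_three]
    simp only [expo_apply]
    have h0 : ∀ i, y i ^ (k i : ℕ) ∈ W x (d i * m) := fun i =>
      W_mono (Nat.mul_le_mul_left _ (Nat.le_of_lt_succ (k i).2)) (pow_mem_W (hd i) _)
    have := mul_mem_W (mul_mem_W (h0 0) (h0 1)) (h0 2)
    rwa [← Nat.add_mul, ← Nat.add_mul, ← hD] at this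
  set L : ((Fin 3 → Fin (m + 1)) → ℂ) →ₗ[ℂ] W x (D * m) :=
    ((aeval y).toLinearMap.comp (poly m)).codRestrict _ hmem with hL
  have hninj : ¬ Function.Injective L := by
    intro hinj
    have h1 := LinearMap.finrank_le_finrank_of_injective hinj
    rw [Module.finrank_pi, Fintype.card_fun, Fintype.card_fin, Fintype.card_fin] at h1
    have h2 := (abs_le.1 (hc (D * m))).2
    have h3 : (2 : ℤ) * ((m : ℤ) + 1) ^ 3 ≤ N * ((D : ℤ) * m) ^ 2 + c * (D * m + 1) := by
      have h1' : (((m : ℤ) + 1) ^ 3) ≤ (Module.finrank ℂ (W x (D * m)) : ℤ) := by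
        exact_mod_cast h1
      push_cast at h2
      linarith
    have h4 : (c : ℤ) ≤ c.natAbs := by
      rw [Int.natCast_natAbs]
      exact le_abs_self c
    have h5 : (m : ℤ) = N * (D : ℤ) ^ 2 + (c.natAbs : ℤ) * (D + 1) := by
      rw [hm]; push_cast; ring
    have h6 : (0 : ℤ) ≤ c.natAbs := Int.natCast_nonneg _
    have hD0 : (0 : ℤ) ≤ D := Int.natCast_nonneg _
    have hm0 : (0 : ℤ) ≤ m := Int.natCast_nonneg _
    have hN0 : (0 : ℤ) ≤ N := Int.natCast_nonneg _
    have h7 : c * ((D : ℤ) * m + 1) ≤ (c.natAbs : ℤ) * (D + 1) * (m + 1) ^ 2 := by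
      calc c * ((D : ℤ) * m + 1) ≤ (c.natAbs : ℤ) * (D * m + 1) := by gcongr
        _ ≤ (c.natAbs : ℤ) * ((D + 1) * (m + 1) ^ 2) := by
            gcongr
            nlinarith [mul_nonneg hD0 hm0, mul_nonneg hm0 hm0, mul_nonneg hD0 (mul_nonneg hm0 hm0)]
        _ = _ := by ring
    have h8 : N * ((D : ℤ) * m) ^ 2 ≤ N * (D : ℤ) ^ 2 * (m + 1) ^ 2 := by
      rw [mul_pow, ← mul_assoc]
      gcongr
      linarith
    have h9 : (2 : ℤ) * (m + 1) ^ 3 ≤ m * (m + 1) ^ 2 := by
      calc (2 : ℤ) * (m + 1) ^ 3 ≤ N * (D : ℤ) ^ 2 * (m + 1) ^ 2 +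
            (c.natAbs : ℤ) * (D + 1) * (m + 1) ^ 2 := by linarith
        _ = (N * (D : ℤ) ^ 2 + (c.natAbs : ℤ) * (D + 1)) * (m + 1) ^ 2 := by ring
        _ = m * (m + 1) ^ 2 := by rw [← h5]
    nlinarith [mul_nonneg hm0 hm0, mul_nonneg hm0 (mul_nonneg hm0 hm0)]
  rw [← LinearMap.ker_eq_bot, ← ne_eq, Submodule.ne_bot_iff] at hninj
  obtain ⟨a, ha, ha0⟩ := hninj
  refine ⟨poly m a, ?_, ?_⟩
  · intro h
    apply ha0
    funext k
    rw [← coeff_poly m a k, h, coeff_zero]
    rfl
  · have h1 : L a = 0 := ha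
    have h2 := congrArg Subtype.val h1
    exact h2

theorem aeval_congr3 {A : Type} [CommRing A] [Algebra ℂ A] {g : MvPolynomial (Fin 3) ℂ}
    (hg : ∀ k ∈ g.support, k 2 = 0) (y y' : Fin 3 → A) (h0 : y 0 = y' 0) (h1 : y 1 = y' 1) :
    aeval y g = aeval y' g := by
  rw [aeval_def, aeval_def, eval₂_eq', eval₂_eq']
  refine Finset.sum_congr rfl fun k hk => ?_
  rw [Fin.prod_univ_three, Fin.prod_univ_three, hg k hk, h0, h1, pow_zero, pow_zero]

end rel

/-- Taylor expansion modulo the square of the maximal ideal -/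
theorem taylor {R : Type} [CommRing R] [Algebra ℂ R] (y : Fin 3 → R) (ε : R →ₐ[ℂ] ℂ)
    (g : MvPolynomial (Fin 3) ℂ) :
    aeval y g - algebraMap ℂ R (ε (aeval y g)) - ∑ i, algebraMap ℂ R (ε (aeval y (pderiv i g))) *
      (y i - algebraMap ℂ R (ε (y i))) ∈ RingHom.ker ε ^ 2 := by
  classical
  induction g using MvPolynomial.induction_on with
  | C a => simp
  | add p q hp hq =>
    convert Ideal.add_mem _ hp hq using 1
    simp only [map_add, add_mul, Finset.sum_add_distrib]
    ring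
  | mul_X p j hp =>
    have h1 : (aeval y p - algebraMap ℂ R (ε (aeval y p))) *
        (y j - algebraMap ℂ R (ε (y j))) ∈ RingHom.ker ε ^ 2 := by
      rw [sq]
      refine Ideal.mul_mem_mul ?_ ?_ <;> simp [RingHom.mem_ker]
    have h2 := Ideal.mul_mem_left _ (algebraMap ℂ R (ε (y j))) hp
    have h3 : ∑ i, algebraMap ℂ R (ε (aeval y (pderiv i (p * X j)))) *
        (y i - algebraMap ℂ R (ε (y i))) =
        algebraMap ℂ R (ε (aeval y p)) * (y j - algebraMap ℂ R (ε (y j))) +
        algebraMap ℂ R (ε (y j)) * ∑ i, algebraMap ℂ R (ε (aeval y (pderiv i p))) *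
          (y i - algebraMap ℂ R (ε (y i))) := by
      have h4 : ∀ i, algebraMap ℂ R (ε (aeval y (pderiv i (p * X j)))) *
          (y i - algebraMap ℂ R (ε (y i))) =
          (if j = i then algebraMap ℂ R (ε (aeval y p)) * (y j - algebraMap ℂ R (ε (y j)))
            else 0) + algebraMap ℂ R (ε (y j)) * (algebraMap ℂ R (ε (aeval y (pderiv i p))) *
              (y i - algebraMap ℂ R (ε (y i)))) := by
        intro i
        rw [pderiv_mul, pderiv_X]
        by_cases hij : j = i
        · subst hij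
          simp only [Pi.single_eq_same, mul_one, map_add, map_mul, aeval_X, if_true]
          ring
        · rw [Pi.single_eq_of_ne hij, if_neg hij]
          simp only [mul_zero, add_zero, map_mul, aeval_X, zero_add]
          ring
      rw [Finset.sum_congr rfl fun i _ => h4 i, Finset.sum_add_distrib, Finset.mul_sum]
      simp
    convert Ideal.add_mem _ h1 h2 using 1
    rw [h3]
    simp only [map_mul, aeval_X]
    ring

/-- an ideal which contains the differences of the generators contains all differences -/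
theorem sub_mem_of_gen {R : Type} [CommRing R] [Algebra ℂ R] {n : ℕ} (x : Fin n → R)
    (ε : R →ₐ[ℂ] ℂ) (I : Ideal R) (hI : ∀ l, x l - algebraMap ℂ R (ε (x l)) ∈ I)
    (f : MvPolynomial (Fin n) ℂ) : aeval x f - algebraMap ℂ R (ε (aeval x f)) ∈ I := by
  induction f using MvPolynomial.induction_on with
  | C a => simp
  | add p q hp hq =>
    convert Ideal.add_mem _ hp hq using 1
    simp only [map_add]
    ring
  | mul_X p j hp =>
    convert Ideal.add_mem _ (Ideal.mul_mem_right (x j) _ hp)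
      (Ideal.mul_mem_left _ (algebraMap ℂ R (ε (aeval x p))) (hI j)) using 1
    simp only [map_mul, aeval_X]
    ring

end Pool.Agent.helper42.SC

namespace Pool.Agent.helper7.SC

open MvPolynomial Pool.Agent.helper5.NBS Pool.Agent.helper42.SC

theorem exists_rel {R : Type} [CommRing R] [IsDomain R] [Algebra ℂ R] {n : ℕ} {x : Fin n → R}
    {N : ℕ} {h v : R} {ε : R →ₐ[ℂ] ℂ} (S : Surf x N h v ε)
    (τ : R →ₐ[ℂ] MvPowerSeries (Fin 2) ℂ) (_hτ : Function.Injective τ)
    (hv : τ v = MvPowerSeries.X 0) (hh : τ h = MvPowerSeries.X 1) (z : R) :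
    ∃ g : MvPolynomial (Fin 3) ℂ, aeval ![v, h, z] g = 0 ∧ aeval ![v, h, z] (pderiv 2 g) ≠ 0 := by
  classical
  have hex : ∃ k : ℕ, ∃ g : MvPolynomial (Fin 3) ℂ, g ≠ 0 ∧ aeval ![v, h, z] g = 0 ∧
      ∀ e ∈ g.support, e 2 ≤ k := by
    obtain ⟨g, hg0, hg⟩ := exists_rel0 S.gen S.growth ![v, h, z]
    exact ⟨g.support.sup fun e => e 2, g, hg0, hg, fun e he =>
      Finset.le_sup (f := fun e : Fin 3 →₀ ℕ => e 2) he⟩
  obtain ⟨g, hg0, hg, hk⟩ := Nat.find_spec hex
  refine ⟨g, hg, fun hder => ?_⟩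
  by_cases hp : pderiv 2 g = 0
  · -- then `g` does not involve the last variable
    have hsupp : ∀ e ∈ g.support, e 2 = 0 := by
      intro e he
      by_contra hne
      have h1 := coeff_pderiv (i := 2) g (e - Finsupp.single 2 1)
      have h2 : e - Finsupp.single 2 1 + Finsupp.single 2 1 = e := by
        ext i
        by_cases hi : i = 2
        · subst hi
          simp
          omega
        · simp [Ne.symm hi]
      rw [hp, coeff_zero, h2] at h1
      have h3 : coeff e g ≠ 0 := mem_support_iff.1 he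
      have h4 := h1.symm
      rw [mul_eq_zero] at h4
      rcases h4 with h4 | h4
      · exact h3 h4
      · norm_cast at h4
    set g0 : MvPolynomial (Fin 2) ℂ := aeval ![X 0, X 1, 0] g with hg0def
    have e1 : (aeval ![v, h] : MvPolynomial (Fin 2) ℂ →ₐ[ℂ] R) g0 = 0 := by
      rw [hg0def, ← AlgHom.comp_apply, comp_aeval, ← hg]
      exact aeval_congr3 hsupp _ _ (by simp) (by simp)
    have e2 : (aeval ![X 0, X 1] : MvPolynomial (Fin 2) ℂ →ₐ[ℂ] MvPolynomial (Fin 3) ℂ) g0 = g := by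
      rw [hg0def, ← AlgHom.comp_apply, comp_aeval]
      conv_rhs => rw [← aeval_X_left_apply g]
      exact aeval_congr3 hsupp _ _ (by simp) (by simp)
    have e3 : τ.comp (aeval ![v, h]) = (MvPolynomial.coeToMvPowerSeries.algHom ℂ) := by
      apply MvPolynomial.algHom_ext
      intro i
      fin_cases i
      · simp [hv]
      · simp [hh]
    have e4 : (g0 : MvPowerSeries (Fin 2) ℂ) = 0 := by
      have := DFunLike.congr_fun e3 g0
      rw [AlgHom.comp_apply, e1, map_zero] at this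
      simpa using this.symm
    have e5 : g0 = 0 := by
      apply MvPolynomial.coe_injective
      rw [e4]
      simp
    rw [e5, map_zero] at e2
    exact hg0 e2.symm
  · have hlt : ∀ e ∈ (pderiv 2 g).support, e 2 + 1 ≤ Nat.find hex := by
      intro e he
      have h1 : coeff e (pderiv 2 g) ≠ 0 := mem_support_iff.1 he
      rw [coeff_pderiv] at h1
      have h2 : e + Finsupp.single 2 1 ∈ g.support := by
        rw [mem_support_iff]
        exact left_ne_zero_of_mul h1
      have h3 := hk _ h2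
      simpa using h3
    have hpos : 0 < Nat.find hex := by
      obtain ⟨e, he⟩ := support_nonempty.2 hp
      have := hlt e he
      omega
    refine Nat.find_min hex (m := Nat.find hex - 1) (by omega) ⟨pderiv 2 g, hp, hder, ?_⟩
    intro e he
    have := hlt e he
    omega

/-- local coordinates at general points -/
theorem local_coords {R : Type} [CommRing R] [Algebra ℂ R] {n : ℕ} (x : Fin n → R)
    (hx : Algebra.adjoin ℂ (Set.range x) = ⊤) (h v : R) (g : Fin n → MvPolynomial (Fin 3) ℂ)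
    (hg : ∀ l, aeval ![v, h, x l] (g l) = 0) (ε : R →ₐ[ℂ] ℂ)
    (hε : ∀ l, ε (aeval ![v, h, x l] (pderiv 2 (g l))) ≠ 0) :
    RingHom.ker ε ≤ Ideal.span {h - algebraMap ℂ R (ε h), v - algebraMap ℂ R (ε v)} ⊔
      RingHom.ker ε ^ 2 := by
  set J := Ideal.span {h - algebraMap ℂ R (ε h), v - algebraMap ℂ R (ε v)} ⊔
      RingHom.ker ε ^ 2 with hJ
  have hJh : h - algebraMap ℂ R (ε h) ∈ J :=
    Ideal.mem_sup_left (Ideal.subset_span (by simp))
  have hJv : v - algebraMap ℂ R (ε v) ∈ J :=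
    Ideal.mem_sup_left (Ideal.subset_span (by simp))
  have hgen : ∀ l, x l - algebraMap ℂ R (ε (x l)) ∈ J := by
    intro l
    have h1 : _ ∈ J := Ideal.mem_sup_right (taylor ![v, h, x l] ε (g l))
    rw [hg l, map_zero, map_zero, sub_zero, zero_sub, Fin.sum_univ_three, neg_mem_iff] at h1
    set c := ε (aeval ![v, h, x l] (pderiv 2 (g l))) with hc
    have h2 : algebraMap ℂ R c * (x l - algebraMap ℂ R (ε (x l))) ∈ J := by
      have h3 := Ideal.sub_mem _ (Ideal.sub_mem _ h1
        (Ideal.mul_mem_left _ (algebraMap ℂ R (ε (aeval ![v, h, x l] (pderiv 0 (g l))))) hJv))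
        (Ideal.mul_mem_left _ (algebraMap ℂ R (ε (aeval ![v, h, x l] (pderiv 1 (g l))))) hJh)
      convert h3 using 1
      simp only [Matrix.cons_val]
      ring
    have h3 := Ideal.mul_mem_left _ (algebraMap ℂ R c⁻¹) h2
    rw [← mul_assoc, ← map_mul, inv_mul_cancel₀ (hε l), map_one, one_mul] at h3
    exact h3
  intro F hF
  have hz : F ∈ Algebra.adjoin ℂ (Set.range x) := by rw [hx]; trivial
  rw [Algebra.adjoin_range_eq_range_aeval] at hz
  obtain ⟨f, hf⟩ := hz
  have h1 := sub_mem_of_gen x ε J hgen f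
  have hf' : aeval x f = F := hf
  have hF' : ε F = 0 := hF
  rw [hf', hF', map_zero, sub_zero] at h1
  exact h1

end Pool.Agent.helper7.SC
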